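import Pool.Agent.X115.HS.Stm2

/-! Project HS (MP_e4c1d4_an, helper115): the part LAPG, the Laplacian of the heat kernels with
complex time and bounds. -/

set_option autoImplicit false

namespace Pool.Agent.X186.HS

open MeasureTheory Set Filter Topology Real Pool.Agent.X115.HS

/-- the square of the norm along a coordinate line -/
theorem normsq_line {n : ℕ} (w : X n) (i : Fin n) (s : ℝ) :
    ‖w + s • EuclideanSpace.single i (1 : ℝ)‖ ^ 2 = ‖w‖ ^ 2 + 2 * s * w i + s ^ 2 := by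
  rw [@norm_add_sq_real]
  rw [inner_smul_right, norm_smul, PiLp.norm_single, EuclideanSpace.inner_single_right]
  simp [sq_abs]
  ring

/-- the heat kernel along a coordinate line -/
theorem hk_line {n : ℕ} (z : ℂ) (w : X n) (i : Fin n) (s : ℝ) :
    hk z (w + s • EuclideanSpace.single i (1 : ℝ)) =
      (4 * π * z) ^ (-((n : ℂ) / 2)) *
        Complex.exp (-(1 / (4 * z)) * (((‖w‖ ^ 2 : ℝ) : ℂ) + 2 * s * ((w i : ℝ) : ℂ) + s ^ 2)) := by
  unfold hk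
  rw [normsq_line]
  congr 2
  push_cast
  ring

/-- the first derivative of the heat kernel along a coordinate line -/
theorem hasDerivAt_line {n : ℕ} (z : ℂ) (w : X n) (i : Fin n) (s : ℝ) :
    HasDerivAt (fun s : ℝ => hk z (w + s • EuclideanSpace.single i (1 : ℝ)))
      (-(1 / (4 * z)) * (2 * ((w i : ℝ) : ℂ) + 2 * s) *
        hk z (w + s • EuclideanSpace.single i (1 : ℝ))) s := by
  have h0 : HasDerivAt (fun s : ℝ => (s : ℂ)) 1 s := Complex.ofRealCLM.hasDerivAt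
  have h1 : HasDerivAt (fun s : ℝ => (((‖w‖ ^ 2 : ℝ) : ℂ) + 2 * (s : ℂ) * ((w i : ℝ) : ℂ) + (s : ℂ) ^ 2))
      (2 * ((w i : ℝ) : ℂ) + 2 * s) s := by
    have := (((h0.const_mul 2).mul_const ((w i : ℝ) : ℂ)).const_add ((‖w‖ ^ 2 : ℝ) : ℂ)).add
      (h0.pow 2)
    refine this.congr_deriv ?_
    push_cast
    ring
  have h2 := ((h1.const_mul (-(1 / (4 * z)))).cexp).const_mul ((4 * π * z) ^ (-((n : ℂ) / 2)))
  have h3 : (fun s : ℝ => hk z (w + s • EuclideanSpace.single i (1 : ℝ))) = fun s : ℝ =>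
      (4 * π * z) ^ (-((n : ℂ) / 2)) *
        Complex.exp (-(1 / (4 * z)) * (((‖w‖ ^ 2 : ℝ) : ℂ) + 2 * s * ((w i : ℝ) : ℂ) + s ^ 2)) := by
    funext s
    exact hk_line z w i s
  rw [h3]
  refine h2.congr_deriv ?_
  rw [hk_line]
  ring

/-- the second derivative -/
theorem hasDerivAt_line2 {n : ℕ} (z : ℂ) (w : X n) (i : Fin n) (s : ℝ) :
    HasDerivAt (fun s : ℝ => -(1 / (4 * z)) * (2 * ((w i : ℝ) : ℂ) + 2 * s) *
        hk z (w + s • EuclideanSpace.single i (1 : ℝ)))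
      ((-(1 / (4 * z)) * 2 + (-(1 / (4 * z)) * (2 * ((w i : ℝ) : ℂ) + 2 * s)) ^ 2) *
        hk z (w + s • EuclideanSpace.single i (1 : ℝ))) s := by
  have h0 : HasDerivAt (fun s : ℝ => (s : ℂ)) 1 s := Complex.ofRealCLM.hasDerivAt
  have h1 : HasDerivAt (fun s : ℝ => -(1 / (4 * z)) * (2 * ((w i : ℝ) : ℂ) + 2 * s))
      (-(1 / (4 * z)) * 2) s := by
    have := ((h0.const_mul 2).const_add (2 * ((w i : ℝ) : ℂ))).const_mul (-(1 / (4 * z)))
    refine this.congr_deriv ?_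
    ring
  have h2 := h1.mul (hasDerivAt_line z w i s)
  refine h2.congr_deriv ?_
  ring

theorem re_hasDerivAt {f : ℝ → ℂ} {f' : ℂ} {s : ℝ} (h : HasDerivAt f f' s) :
    HasDerivAt (fun s => (f s).re) f'.re s :=
  (Complex.reCLM.hasFDerivAt (x := f s)).comp_hasDerivAt s h

theorem im_hasDerivAt {f : ℝ → ℂ} {f' : ℂ} {s : ℝ} (h : HasDerivAt f f' s) :
    HasDerivAt (fun s => (f s).im) f'.im s :=
  (Complex.imCLM.hasFDerivAt (x := f s)).comp_hasDerivAt s h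

theorem shift {n : ℕ} (x x0 : X n) (i : Fin n) (s : ℝ) :
    x + s • EuclideanSpace.single i (1 : ℝ) - x0 =
      (x - x0) + s • EuclideanSpace.single i (1 : ℝ) := by abel

theorem pd_re {n : ℕ} (z : ℂ) (x x0 : X n) (i : Fin n) :
    pd i (fun y => (hk z (y - x0)).re) x =
      (-(1 / (4 * z)) * (2 * (((x - x0) i : ℝ) : ℂ)) * hk z (x - x0)).re := by
  unfold pd
  simp only [shift]
  rw [(re_hasDerivAt (hasDerivAt_line z (x - x0) i 0)).deriv]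
  simp

theorem pd_im {n : ℕ} (z : ℂ) (x x0 : X n) (i : Fin n) :
    pd i (fun y => (hk z (y - x0)).im) x =
      (-(1 / (4 * z)) * (2 * (((x - x0) i : ℝ) : ℂ)) * hk z (x - x0)).im := by
  unfold pd
  simp only [shift]
  rw [(im_hasDerivAt (hasDerivAt_line z (x - x0) i 0)).deriv]
  simp

theorem d2_re {n : ℕ} (z : ℂ) (x x0 : X n) (i : Fin n) :
    d2 i (fun y => (hk z (y - x0)).re) x =
      ((-(1 / (4 * z)) * 2 + (-(1 / (4 * z)) * (2 * (((x - x0) i : ℝ) : ℂ))) ^ 2) *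
        hk z (x - x0)).re := by
  unfold d2
  simp only [shift]
  have h : (deriv fun s : ℝ => (hk z (x - x0 + s • EuclideanSpace.single i (1 : ℝ))).re) =
      fun s : ℝ => (-(1 / (4 * z)) * (2 * (((x - x0) i : ℝ) : ℂ) + 2 * s) *
        hk z (x - x0 + s • EuclideanSpace.single i (1 : ℝ))).re := by
    funext s
    exact (re_hasDerivAt (hasDerivAt_line z (x - x0) i s)).deriv
  rw [h, (re_hasDerivAt (hasDerivAt_line2 z (x - x0) i 0)).deriv]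
  simp

theorem d2_im {n : ℕ} (z : ℂ) (x x0 : X n) (i : Fin n) :
    d2 i (fun y => (hk z (y - x0)).im) x =
      ((-(1 / (4 * z)) * 2 + (-(1 / (4 * z)) * (2 * (((x - x0) i : ℝ) : ℂ))) ^ 2) *
        hk z (x - x0)).im := by
  unfold d2
  simp only [shift]
  have h : (deriv fun s : ℝ => (hk z (x - x0 + s • EuclideanSpace.single i (1 : ℝ))).im) =
      fun s : ℝ => (-(1 / (4 * z)) * (2 * (((x - x0) i : ℝ) : ℂ) + 2 * s) *
        hk z (x - x0 + s • EuclideanSpace.single i (1 : ℝ))).im := by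
    funext s
    exact (im_hasDerivAt (hasDerivAt_line z (x - x0) i s)).deriv
  rw [h, (im_hasDerivAt (hasDerivAt_line2 z (x - x0) i 0)).deriv]
  simp

theorem sum_d2 {n : ℕ} (z : ℂ) (hz : z ≠ 0) (w : X n) :
    ∑ i, ((-(1 / (4 * z)) * 2 + (-(1 / (4 * z)) * (2 * ((w i : ℝ) : ℂ))) ^ 2) * hk z w) =
      dhk z w := by
  rw [← Finset.sum_mul, Finset.sum_add_distrib]
  unfold dhk
  congr 1
  have h1 : (((‖w‖ ^ 2 : ℝ) : ℂ)) = ∑ i, ((w i : ℝ) : ℂ) ^ 2 := by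
    rw [EuclideanSpace.real_norm_sq_eq]
    push_cast
    rfl
  rw [h1]
  simp only [Finset.sum_const, Finset.card_univ, Fintype.card_fin, nsmul_eq_mul, mul_pow]
  rw [← Finset.mul_sum, ← Finset.mul_sum]
  field_simp
  ring

theorem hk_contDiff {n : ℕ} (z : ℂ) (x0 : X n) :
    ContDiff ℝ ((⊤ : ℕ∞) : WithTop ℕ∞) (fun x : X n => hk z (x - x0)) := by
  unfold hk
  have h0 : ContDiff ℝ ((⊤ : ℕ∞) : WithTop ℕ∞) (fun x : X n => x - x0) :=
    contDiff_id.sub contDiff_const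
  have h1 : ContDiff ℝ ((⊤ : ℕ∞) : WithTop ℕ∞) (fun x : X n => ‖x - x0‖ ^ 2) := h0.norm_sq ℝ
  have h2 : ContDiff ℝ ((⊤ : ℕ∞) : WithTop ℕ∞) (fun x : X n => ((‖x - x0‖ ^ 2 : ℝ) : ℂ)) :=
    Complex.ofRealCLM.contDiff.comp h1
  exact contDiff_const.mul ((h2.neg.div_const (4 * z)).cexp)

theorem norm_hk {n : ℕ} (z : ℂ) (w : X n) :
    ‖hk z w‖ = ‖(4 * π * z) ^ (-((n : ℂ) / 2))‖ * Real.exp (-((1 / (4 * z)).re * ‖w‖ ^ 2)) := by
  unfold hk
  rw [norm_mul, Complex.norm_exp]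
  congr 2
  have : -(((‖w‖ ^ 2 : ℝ) : ℂ)) / (4 * z) = ((-‖w‖ ^ 2 : ℝ) : ℂ) * (1 / (4 * z)) := by
    push_cast
    ring
  rw [this, Complex.re_ofReal_mul]
  ring

theorem bound {n : ℕ} (z : ℂ) (ρ : ℝ) (hρ : 0 < ρ) (h : ρ = (1 / (4 * z)).re) (A B P : ℝ)
    (hA : 0 ≤ A) (hB : 0 ≤ B) (w : X n) (hP : P ≤ A + B * ‖w‖ ^ 2) :
    P * ‖hk z w‖ ≤ ((A + B * (2 / ρ)) * ‖(4 * π * z) ^ (-((n : ℂ) / 2))‖ /
      (4 * π * (1 / (2 * ρ))) ^ (-((n : ℝ) / 2))) * gk (1 / (2 * ρ)) w := by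
  have hK : 0 ≤ ‖(4 * π * z) ^ (-((n : ℂ) / 2))‖ := norm_nonneg _
  have hpos : 0 < (4 * π * (1 / (2 * ρ))) ^ (-((n : ℝ) / 2)) := by positivity
  unfold gk
  rw [norm_hk, ← h]
  set K := ‖(4 * π * z) ^ (-((n : ℂ) / 2))‖ with hKd
  set L := (4 * π * (1 / (2 * ρ))) ^ (-((n : ℝ) / 2)) with hLd
  have e1 : -‖w‖ ^ 2 / (4 * (1 / (2 * ρ))) = -(ρ * ‖w‖ ^ 2 / 2) := by
    field_simp
    ring
  rw [e1]
  have e2 : Real.exp (-(ρ * ‖w‖ ^ 2)) =
      Real.exp (-(ρ * ‖w‖ ^ 2 / 2)) * Real.exp (-(ρ * ‖w‖ ^ 2 / 2)) := by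
    rw [← Real.exp_add]
    congr 1
    ring
  have e3 : ((A + B * (2 / ρ)) * K / L) * (L * Real.exp (-(ρ * ‖w‖ ^ 2 / 2))) =
      (A + B * (2 / ρ)) * K * Real.exp (-(ρ * ‖w‖ ^ 2 / 2)) := by
    field_simp
  rw [e3, e2]
  set E := Real.exp (-(ρ * ‖w‖ ^ 2 / 2)) with hE
  have hE0 : 0 < E := Real.exp_pos _
  have hE1 : E ≤ 1 := by
    rw [hE]
    apply Real.exp_le_one_iff.mpr
    have : 0 ≤ ρ * ‖w‖ ^ 2 / 2 := by positivity
    linarith
  have hE2 : ‖w‖ ^ 2 * E ≤ 2 / ρ := by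
    have h1 : ρ * ‖w‖ ^ 2 / 2 ≤ Real.exp (ρ * ‖w‖ ^ 2 / 2) := by
      have := Real.add_one_le_exp (ρ * ‖w‖ ^ 2 / 2)
      linarith
    have h2 : Real.exp (ρ * ‖w‖ ^ 2 / 2) * E = 1 := by
      rw [hE, ← Real.exp_add]
      simp
    have h3 : ρ * ‖w‖ ^ 2 / 2 * E ≤ 1 := by
      calc ρ * ‖w‖ ^ 2 / 2 * E ≤ Real.exp (ρ * ‖w‖ ^ 2 / 2) * E :=
            mul_le_mul_of_nonneg_right h1 hE0.le
        _ = 1 := h2
    rw [le_div_iff₀ hρ]
    nlinarith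
  have h4 : P * E ≤ A + B * (2 / ρ) := by
    calc P * E ≤ (A + B * ‖w‖ ^ 2) * E := mul_le_mul_of_nonneg_right hP hE0.le
      _ = A * E + B * (‖w‖ ^ 2 * E) := by ring
      _ ≤ A * 1 + B * (2 / ρ) := by
          gcongr
      _ = A + B * (2 / ρ) := by ring
  calc P * (K * (E * E)) = (P * E) * (K * E) := by ring
    _ ≤ (A + B * (2 / ρ)) * (K * E) := mul_le_mul_of_nonneg_right h4 (by positivity)
    _ = (A + B * (2 / ρ)) * K * E := by ring

theorem re_pos {z : ℂ} (hz : 0 < z.re) : 0 < (1 / (4 * z)).re := by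
  rw [one_div, Complex.inv_re]
  have hz0 : z ≠ 0 := by
    rintro rfl
    simp at hz
  have : 0 < (4 * z).re := by
    simp [hz]
  have h2 : 0 < Complex.normSq (4 * z) := by
    rw [Complex.normSq_pos]
    simpa using hz0
  positivity

theorem t_LAPG : S_LAPG := by
  intro n z hz
  have hz0 : z ≠ 0 := by
    rintro rfl
    simp at hz
  refine ⟨fun x0 => ⟨Complex.reCLM.contDiff.comp (hk_contDiff z x0),
    Complex.imCLM.contDiff.comp (hk_contDiff z x0), fun x => ⟨?_, ?_⟩⟩, ?_⟩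
  · unfold lap
    simp only [d2_re]
    rw [← Complex.re_sum, sum_d2 z hz0]
  · unfold lap
    simp only [d2_im]
    rw [← Complex.im_sum, sum_d2 z hz0]
  · set ρ := (1 / (4 * z)).re with hρd
    have hρ : 0 < ρ := re_pos hz
    set K := ‖(4 * π * z) ^ (-((n : ℂ) / 2))‖ with hKd
    set L := (4 * π * (1 / (2 * ρ))) ^ (-((n : ℝ) / 2)) with hLd
    have hL : 0 < L := by positivity
    have hK : 0 ≤ K := norm_nonneg _
    -- one pair of constants for all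
    set A := 1 + ‖(n / (2 * z) : ℂ)‖ + ‖-(1 / (4 * z)) * 2‖ with hA
    set B := ‖(1 / (4 * z ^ 2) : ℂ)‖ + ‖-(1 / (4 * z)) * 2‖ with hB
    have hA0 : 0 ≤ A := by positivity
    have hB0 : 0 ≤ B := by positivity
    refine ⟨(A + B * (2 / ρ)) * K / L, 1 / (2 * ρ), by positivity, fun x0 x => ?_⟩
    have key := fun P hP => bound (n := n) z ρ hρ hρd A B P hA0 hB0 (x - x0) hP
    have hw2 : 0 ≤ ‖x - x0‖ ^ 2 := by positivity
    have hpd : ∀ i, ‖-(1 / (4 * z)) * (2 * (((x - x0) i : ℝ) : ℂ)) * hk z (x - x0)‖ ≤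
        ((A + B * (2 / ρ)) * K / L) * gk (1 / (2 * ρ)) (x - x0) := by
      intro i
      rw [norm_mul]
      apply key
      have h1 : ‖-(1 / (4 * z)) * (2 * (((x - x0) i : ℝ) : ℂ))‖ =
          ‖-(1 / (4 * z)) * 2‖ * |(x - x0) i| := by
        rw [← mul_assoc, norm_mul, Complex.norm_real, Real.norm_eq_abs]
      rw [h1]
      have h2 : |(x - x0) i| ≤ ‖x - x0‖ := by
        have := PiLp.norm_apply_le (x - x0) i
        simpa using this
      have h3 : ‖x - x0‖ ≤ 1 + ‖x - x0‖ ^ 2 := by nlinarith [norm_nonneg (x - x0), sq_nonneg (‖x - x0‖ - 1)]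
      have h4 : ‖-(1 / (4 * z)) * 2‖ * |(x - x0) i| ≤
          ‖-(1 / (4 * z)) * 2‖ * (1 + ‖x - x0‖ ^ 2) :=
        mul_le_mul_of_nonneg_left (h2.trans h3) (norm_nonneg _)
      have h5 : 0 ≤ ‖(n / (2 * z) : ℂ)‖ := norm_nonneg _
      have h6 : 0 ≤ ‖(1 / (4 * z ^ 2) : ℂ)‖ * ‖x - x0‖ ^ 2 := by positivity
      rw [hA, hB]
      nlinarith
    refine ⟨?_, ?_, fun i => ⟨?_, ?_⟩⟩
    · have := key 1 (by
        have h5 : 0 ≤ ‖(n / (2 * z) : ℂ)‖ := norm_nonneg _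
        have h6 : 0 ≤ ‖-(1 / (4 * z)) * 2‖ := norm_nonneg _
        have h7 : 0 ≤ B * ‖x - x0‖ ^ 2 := by positivity
        rw [hA]
        linarith)
      rwa [one_mul] at this
    · unfold dhk
      rw [norm_mul]
      apply key
      have h1 : (((‖x - x0‖ ^ 2 : ℝ) : ℂ) / (4 * z ^ 2) - n / (2 * z)) =
          ((‖x - x0‖ ^ 2 : ℝ) : ℂ) * (1 / (4 * z ^ 2)) - n / (2 * z) := by ring
      have h2 : ‖((‖x - x0‖ ^ 2 : ℝ) : ℂ) * (1 / (4 * z ^ 2)) - n / (2 * z)‖ ≤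
          ‖x - x0‖ ^ 2 * ‖(1 / (4 * z ^ 2) : ℂ)‖ + ‖(n / (2 * z) : ℂ)‖ := by
        refine (norm_sub_le _ _).trans ?_
        rw [norm_mul, Complex.norm_real, Real.norm_eq_abs, abs_of_nonneg hw2]
      rw [h1]
      refine h2.trans ?_
      have h6 : 0 ≤ ‖-(1 / (4 * z)) * 2‖ := norm_nonneg _
      have h7 : 0 ≤ ‖-(1 / (4 * z)) * 2‖ * ‖x - x0‖ ^ 2 := by positivity
      rw [hA, hB]
      nlinarith
    · rw [pd_re]
      exact (Complex.abs_re_le_norm _).trans (hpd i)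
    · rw [pd_im]
      exact (Complex.abs_im_le_norm _).trans (hpd i)

end Pool.Agent.X186.HS
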